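import Pool.Agent.Q9.EL.Prm

/-!
# Meromorphic continuation across the edge of the Euler product, read off from finite sums over primes

`X` is a smooth projective variety over a number field `K`, for example over `K = ℚ`, and
`L(H^i(X) ⊗ c, s)` the Euler product of `H^i(X)`, twisted by a completely multiplicative function `c`
with `|c| ≤ 1`, for example `c = 1` or `c(n) = χ(n)`.  It converges absolutely for `Re s > i/2 + 1`.
No continuation, no non-vanishing and no automorphy is assumed.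

`IsFrobenius` and `edgePoint` are defined in `Pool/Agent/TH958/BV/Defs.lean`; `edgePoint i τ` is the
point `i/2 + 1 + iτ` of the edge.
-/

set_option autoImplicit false

namespace Pool.Agent.Results.MP_039d94_nt.EdgeContinuation

open NumberField IsDedekindDomain MeasureTheory Filter Topology Polynomial Pool.Agent.TH958.BV

/-- A variety `X` of dimension `d` over a number field `K`, a degree `i`, a set `S` of primes of `K`,
the `N` eigenvalues `α_v` of Frobenius on `H^i(X)` at the primes `v ∉ S`, and a completely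
multiplicative function `c` with `|c| ≤ 1`. -/
structure Datum where
  K : Type
  [field : Field K]
  [numberField : NumberField K]
  n : ℕ
  X : Set (MvPolynomial (Fin n) (𝓞 K))
  d : ℕ
  i : ℕ
  N : ℕ
  S : Set (HeightOneSpectrum (𝓞 K))
  α : HeightOneSpectrum (𝓞 K) → Fin N → ℂ
  frobenius : ∀ v, v ∉ S → IsFrobenius X d i v (α v)
  c : ℕ →* ℂ
  norm_c : ∀ n, ‖c n‖ ≤ 1

attribute [instance] Datum.field Datum.numberField

open Classical in
/-- `L_S(H^i(X) ⊗ c, s)`, the product over the primes `v ∉ S` of `K` of the Euler factors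
`∏_j (1 - c(Nv) α_{v,j} Nv^{-s})⁻¹`. -/
noncomputable def LFun (D : Datum) (s : ℂ) : ℂ :=
  ∏' v : HeightOneSpectrum (𝓞 D.K), if v ∈ D.S then 1 else
    ∏ j, (1 - D.c (Ideal.absNorm v.asIdeal) * D.α v j * (Ideal.absNorm v.asIdeal : ℂ) ^ (-s))⁻¹

open Classical in
/-- `a(p) = c(p) p^{-i/2} ∑_{v ∉ S, Nv = p} ∑_j α_{v,j}`, for a prime number `p`; for `K = ℚ` and
`c = 1` this is the normalised trace of Frobenius at `p` on `H^i(X)`. -/
noncomputable def a (D : Datum) (p : ℕ) : ℂ :=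
  D.c p * (∑' v : HeightOneSpectrum (𝓞 D.K),
    if v ∉ D.S ∧ Ideal.absNorm v.asIdeal = p then ∑ j, D.α v j else 0) /
    (((p : ℝ) ^ ((D.i : ℝ) / 2) : ℝ) : ℂ)

/-- The finite sum `S_x(t) = ∑_{p ≤ x} (a(p) - m p^{iτ}) p^{-1-it}` over the prime numbers. -/
noncomputable def primeSum (D : Datum) (τ : ℝ) (m : ℤ) (x : ℕ) (t : ℝ) : ℂ :=
  ∑ p ∈ (Finset.range (x + 1)).filter Nat.Prime,
    (a D p - m * (p : ℂ) ^ ((τ : ℂ) * Complex.I)) * (p : ℂ) ^ (-(1 + t * Complex.I : ℂ))

/-- Near `τ` the finite sums are approximated by polynomials at a geometric rate: there are `h > 0` and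
`C` such that for every `d` there is a polynomial `P` of degree at most `d` with
`∫_{τ-h}^{τ+h} |S_x(t) - P(t)|² dt ≤ C 100^{-d}` for all sufficiently large `x`. -/
def PolyApprox (D : Datum) (τ : ℝ) (m : ℤ) : Prop :=
  ∃ h C : ℝ, 0 < h ∧ ∀ d : ℕ, ∃ P : ℂ[X], P.natDegree ≤ d ∧ ∃ x₀ : ℕ, ∀ x : ℕ, x₀ ≤ x →
    ∫ t in (τ - h)..(τ + h), ‖primeSum D τ m x t - P.eval (t : ℂ)‖ ^ 2 ≤ C * (1 / 100) ^ d

/-- `L_S(H^i(X) ⊗ c, s)` has a meromorphic continuation to a neighbourhood of `i/2 + 1 + iτ`, of order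
`-m` there: a pole of order `m` if `m > 0`, a zero of order `-m` if `m < 0`. -/
def Continues (D : Datum) (τ : ℝ) (m : ℤ) : Prop :=
  ∃ g : ℂ → ℂ, MeromorphicAt g (edgePoint D.i τ) ∧
    meromorphicOrderAt g (edgePoint D.i τ) = (-m : ℤ) ∧
    ∀ᶠ s in 𝓝 (edgePoint D.i τ), (D.i : ℝ) / 2 + 1 < s.re → g s = LFun D s

/-- `L_S(H^i(X) ⊗ c, s)` has a meromorphic continuation to an open set that contains the half-plane
`Re s > i/2 + 1` and the points `i/2 + 1 + iτ`, `τ ∈ A`, of its edge. -/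
def ContinuesTo (D : Datum) (A : Set ℝ) : Prop :=
  ∃ (U : Set ℂ) (G : ℂ → ℂ), IsOpen U ∧ {s : ℂ | (D.i : ℝ) / 2 + 1 < s.re} ⊆ U ∧
    (∀ τ ∈ A, edgePoint D.i τ ∈ U) ∧ MeromorphicOn G U ∧
    ∀ s : ℂ, (D.i : ℝ) / 2 + 1 < s.re → G s = LFun D s

/-- **Meromorphic continuation across the edge.**  For all smooth projective `X`, all `i` and `c`:

1. for every real `τ` and every integer `m`, the function `L_S(H^i(X) ⊗ c, s)` has a meromorphic
   continuation to a neighbourhood of the point `i/2 + 1 + iτ`, of order `-m` at this point, if and only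
   if near `τ` the sums `∑_{p ≤ x} (a(p) - m p^{iτ}) p^{-1-it}` are approximated by polynomials in `t`
   at a geometric rate;
2. for every set `A` of real numbers, it has a meromorphic continuation to a neighbourhood of the
   half-plane and the points `i/2 + 1 + iτ`, `τ ∈ A`, if and only if for every `τ ∈ A` there is such an
   integer `m`. -/
theorem result (D : Datum) :
    (∀ (τ : ℝ) (m : ℤ), Continues D τ m ↔ PolyApprox D τ m) ∧
    ∀ A : Set ℝ, ContinuesTo D A ↔ ∀ τ ∈ A, ∃ m : ℤ, PolyApprox D τ m := by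
  have hb : ∀ x : Nat.Primes × ℕ, ‖Pool.Agent.Q9.EL.cf D.i D.S D.α D.c x‖ ≤
      ((D.N * Module.finrank ℚ D.K : ℕ) : ℝ) / (x.2 + 1 : ℕ) := fun x =>
    Pool.Agent.Q9.EL.cf_norm le_rfl D.norm_c (map_one D.c) (fun m n => map_mul D.c m n)
      (Pool.Agent.Q9.EL.norm_of_frob D.frobenius) x
  have hF : ∀ s : ℂ, 1 < s.re → LFun D (s + ((D.i : ℝ) / 2 : ℝ)) =
      Complex.exp (Pool.Agent.TH339.MP.FF (Pool.Agent.Q9.EL.cf D.i D.S D.α D.c) s) := by
    intro s hs
    have h2 := Pool.Agent.Q9.EL.LC_eq (c := D.c) D.norm_c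
      (Pool.Agent.Q9.EL.norm_of_frob D.frobenius) hs
    rw [Pool.Agent.Q9.EL.cf_eq (map_one D.c) (fun m n => map_mul D.c m n)]
    rw [← h2]
    have e : (((D.i : ℝ) / 2 : ℝ) : ℂ) = (D.i : ℂ) / 2 := by push_cast; rfl
    rw [e]
    rfl
  have ha : ∀ (p : ℕ) (hp : p.Prime), a D p =
      Pool.Agent.Q9.EL.cf D.i D.S D.α D.c (⟨p, hp⟩, 0) := fun p hp =>
    Pool.Agent.Q9.EL.av_eq (c := D.c) p hp
  have hedge : ∀ τ : ℝ, edgePoint D.i τ = (((1 + (D.i : ℝ) / 2 : ℝ) : ℂ) + τ * Complex.I) := by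
    intro τ
    unfold edgePoint
    push_cast
    ring
  have hcomm : (D.i : ℝ) / 2 + 1 = 1 + (D.i : ℝ) / 2 := add_comm _ _
  refine ⟨fun τ m => ?_, fun A => ?_⟩
  · have h1 := Pool.Agent.Q9.EL.mer_iff_prime (τ := τ) hb hF ha m
    unfold Continues
    rw [hedge, hcomm]
    exact h1
  · have h1 := Pool.Agent.Q9.EL.mer_glue hb hF ha A
    unfold ContinuesTo
    simp_rw [hedge, hcomm]
    exact h1

end Pool.Agent.Results.MP_039d94_nt.EdgeContinuation
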