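import Pool.Agent.Q9.EL.Tw

/-!
# The limit law on the edge of absolute convergence, uniformly over all varieties

`X` is a smooth projective variety over a number field `K`, for example over `K = ℚ`, and
`L(H^i(X) ⊗ c, s)` the Euler product of `H^i(X)`, twisted by a completely multiplicative function `c`
with `|c| ≤ 1`, for example `c(n) = χ(n) n^{-ih}`.  It converges absolutely for `Re s > i/2 + 1`.
No continuation, no non-vanishing and no automorphy is assumed.

`IsFrobenius`, `edgePoint` and `angle` are defined in `Pool/Agent/TH958/BV/Defs.lean`.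
-/

set_option autoImplicit false

namespace Pool.Agent.Results.MP_039d94_nt.EdgeLimitLaw

open NumberField IsDedekindDomain MeasureTheory Filter Topology Pool.Agent.TH958.BV

/-- A variety `X` of dimension `d` over a number field `K`, a degree `i`, a set `S` of primes of `K`,
the `N` eigenvalues `α_v` of Frobenius on `H^i(X)` at the primes `v ∉ S`, where `N [K : ℚ] ≤ M`, and a
completely multiplicative function `c` with `|c| ≤ 1`. -/
structure Datum (M : ℕ) where
  K : Type
  [field : Field K]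
  [numberField : NumberField K]
  n : ℕ
  X : Set (MvPolynomial (Fin n) (𝓞 K))
  d : ℕ
  i : ℕ
  N : ℕ
  S : Set (HeightOneSpectrum (𝓞 K))
  α : HeightOneSpectrum (𝓞 K) → Fin N → ℂ
  frobenius : ∀ v, v ∉ S → IsFrobenius X d i v (α v)
  size : N * Module.finrank ℚ K ≤ M
  c : ℕ →* ℂ
  norm_c : ∀ n, ‖c n‖ ≤ 1

attribute [instance] Datum.field Datum.numberField

variable {M : ℕ}

open Classical in
/-- `L_S(H^i(X) ⊗ c, s)`, the product over the primes `v ∉ S` of `K` of the Euler factors
`∏_j (1 - c(Nv) α_{v,j} Nv^{-s})⁻¹`. -/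
noncomputable def LFun (D : Datum M) (s : ℂ) : ℂ :=
  ∏' v : HeightOneSpectrum (𝓞 D.K), if v ∈ D.S then 1 else
    ∏ j, (1 - D.c (Ideal.absNorm v.asIdeal) * D.α v j * (Ideal.absNorm v.asIdeal : ℂ) ^ (-s))⁻¹

open Classical in
/-- The trace of the `m`-th power of the Frobenius at `p` on the representation of `Gal(ℚ̄/ℚ)` induced
from `H^i(X)`, divided by `p^{mi/2}`: the sum over the divisors `f` of `m` and the primes `v ∉ S` of
`K` with `Nv = p^f` of `f ∑_j α_{v,j}^{m/f}`, divided by `p^{mi/2}`. -/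
noncomputable def trace (D : Datum M) (p : Nat.Primes) (m : ℕ) : ℂ :=
  (∑' v : HeightOneSpectrum (𝓞 D.K), ∑ f ∈ m.divisors,
    if v ∉ D.S ∧ Ideal.absNorm v.asIdeal = (p : ℕ) ^ f then (f : ℂ) * ∑ j, D.α v j ^ (m / f)
      else 0) / ((((p : ℕ) : ℝ) ^ ((m : ℝ) * ((D.i : ℝ) / 2)) : ℝ) : ℂ)

/-- The coefficient `c(p)^m trace(p, m) / m` of `p^{-m(s - i/2)}` in `log L_S(H^i(X) ⊗ c, s)`. -/
noncomputable def coeff (D : Datum M) (p : Nat.Primes) (m : ℕ) : ℂ :=
  D.c p ^ m * trace D p m / (m : ℂ)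

/-- The logarithm of `L_S(H^i(X) ⊗ c, s)` in the half-plane `Re s > i/2 + 1`: the sum over the primes
`p` and `m ≥ 1` of `coeff(p, m) p^{-m(s - i/2)}`. -/
noncomputable def logL (D : Datum M) (s : ℂ) : ℂ :=
  ∑' x : Nat.Primes × ℕ, coeff D x.1 (x.2 + 1) *
    (((x.1 : ℕ) : ℂ) ^ (-(s - D.i / 2))) ^ (x.2 + 1)

/-- The boundary value of the logarithm at the point `i/2 + 1 + iτ` of the edge: its limit there along
the horizontal line. -/
noncomputable def edgeLog (D : Datum M) (τ : ℝ) : ℂ :=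
  limUnder (𝓝[>] (0 : ℝ)) fun h : ℝ => logL D (edgePoint D.i τ + h)

/-- The probability space of the sequences of independent, uniformly distributed angles. -/
noncomputable def angles : Measure (ℕ → UnitAddCircle) :=
  Measure.infinitePi (fun _ : ℕ => AddCircle.haarAddCircle (T := 1))

/-- The random number `f(p) = e^{-2πi z_k}` of absolute value one attached to the prime `p`, where `k`
is the number of the primes less than `p`. -/
noncomputable def unit (z : ℕ → UnitAddCircle) (p : Nat.Primes) : ℂ :=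
  fourier (-1) (z (Nat.count Nat.Prime p))

/-- The random variable `F` is the logarithm of the random Euler product on the edge: the limit, in
the mean of order two, of the sums over the prime powers `p^m ≤ x` of `coeff(p, m) p^{-m} f(p)^m`. -/
def IsRandomLog (D : Datum M) (F : (ℕ → UnitAddCircle) → ℂ) : Prop :=
  Measurable F ∧ MemLp F 2 angles ∧
    Tendsto (fun x : ℕ => eLpNorm (fun z => (∑ᶠ y ∈ {y : Nat.Primes × ℕ | (y.1 : ℕ) ^ (y.2 + 1) ≤ x},
      coeff D y.1 (y.2 + 1) * ((((y.1 : ℕ) : ℝ) ^ (-1 : ℝ)) ^ (y.2 + 1) : ℝ) *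
        unit z y.1 ^ (y.2 + 1)) - F z) 2 angles) atTop (𝓝 0)

/-- **The limit law on the edge.**  First, for all `X`, `i` and `c`: the series `logL` is a logarithm
of `L_S(H^i(X) ⊗ c, s)` for `Re s > i/2 + 1`, and outside a set of real numbers `τ` of Hausdorff
dimension zero it tends to `edgeLog τ` as `s` tends to `i/2 + 1 + iτ` in any angle.

Second, for all `M`, `m` and `ε > 0` there is `T₀` such that for any `m` of these functions with
`dim H^{i_j}(X_j) [K_j : ℚ] ≤ M` and for every interval `[a, a + T]` of length `T ≥ T₀`, the joint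
law of the boundary values `edgeLog_j(t)`, `t` uniformly distributed in `[a, a + T]`, differs from
the joint law of the logarithms of the random Euler products by at most `ε` in the bounded Lipschitz
distance.  `T₀` does not depend on the varieties, their fields of definition, the sets `S_j`, the
twists and `a`. -/
theorem result :
    (∀ (M : ℕ) (D : Datum M),
      (∀ s : ℂ, (D.i : ℝ) / 2 + 1 < s.re → LFun D s = Complex.exp (logL D s)) ∧
      dimH {τ : ℝ | ¬ ∀ C : ℝ, Tendsto (logL D) (𝓝[angle D.i τ C] (edgePoint D.i τ))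
        (𝓝 (edgeLog D τ))} = 0) ∧
    ∀ (M m : ℕ) (ε : ℝ), 0 < ε → ∃ T₀ : ℝ, 1 ≤ T₀ ∧
      ∀ D : Fin m → Datum M, ∃ F : Fin m → (ℕ → UnitAddCircle) → ℂ,
        (∀ j, IsRandomLog (D j) (F j)) ∧
        ∀ T : ℝ, T₀ ≤ T → ∀ a : ℝ, ∀ φ : (Fin m → ℂ) → ℝ, LipschitzWith 1 φ → (∀ w, |φ w| ≤ 1) →
          |(∫ t in a..(a + T), φ fun j => edgeLog (D j) t) / T -
            ∫ z, (φ fun j => F j z) ∂angles| ≤ ε := by
  have key : ∀ (M : ℕ) (D : Datum M), (∀ x : Nat.Primes × ℕ,
      ‖Pool.Agent.Q9.EL.cf D.i D.S D.α D.c x‖ ≤ (M : ℝ) / (x.2 + 1 : ℕ)) := fun M D x =>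
    Pool.Agent.Q9.EL.cf_norm D.size D.norm_c (map_one D.c) (fun m n => map_mul D.c m n)
      (Pool.Agent.Q9.EL.norm_of_frob D.frobenius) x
  have hlog : ∀ (M : ℕ) (D : Datum M),
      logL D = Pool.Agent.Q9.EL.lL D.i (Pool.Agent.Q9.EL.cf D.i D.S D.α D.c) := fun _ _ => rfl
  have hedge : ∀ (M : ℕ) (D : Datum M),
      edgeLog D = Pool.Agent.Q9.EL.bv D.i (Pool.Agent.Q9.EL.cf D.i D.S D.α D.c) := fun _ _ => rfl
  refine ⟨fun M D => ⟨fun s hs => ?_, ?_⟩, fun M m ε hε => ?_⟩
  · have h1 : 1 < (s - D.i / 2).re := by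
      have e : (s - (D.i : ℂ) / 2).re = s.re - D.i / 2 := by simp
      rw [e]
      linarith
    have h2 := Pool.Agent.Q9.EL.LC_eq (c := D.c) D.norm_c
      (Pool.Agent.Q9.EL.norm_of_frob D.frobenius) h1
    rw [sub_add_cancel] at h2
    rw [hlog]
    unfold Pool.Agent.Q9.EL.lL
    rw [Pool.Agent.Q9.EL.cf_eq (map_one D.c) (fun m n => map_mul D.c m n)]
    exact h2
  · rw [hlog, hedge]
    exact Pool.Agent.Q9.EL.dim_exc (key M D)
  · obtain ⟨T₀, hT₀, H⟩ := Pool.Agent.Q9.EL.law m (M := M) (Nat.cast_nonneg M) hε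
    refine ⟨T₀, hT₀, fun D => ?_⟩
    set b : Fin m → Nat.Primes × ℕ → ℂ :=
      fun j => Pool.Agent.Q9.EL.cf (D j).i (D j).S (D j).α (D j).c with hb
    refine ⟨fun j => Pool.Agent.Q9.EL.FR (b j), fun j => ?_, fun T hT a φ h1 h2 => ?_⟩
    · obtain ⟨h1, h2, h3⟩ := Pool.Agent.Q9.EL.FR_PR (key M (D j))
      refine ⟨h1, h2, h3.congr fun x => ?_⟩
      have hset : {y : Nat.Primes × ℕ | (y.1 : ℕ) ^ (y.2 + 1) ≤ x} =
          ((Pool.Agent.TH339.MP.TX x : Finset (Nat.Primes × ℕ)) : Set (Nat.Primes × ℕ)) := by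
        ext y
        rw [Finset.mem_coe, Pool.Agent.TH339.MP.mem_TX]
        rfl
      rw [hset]
      congr 1
      funext z
      rw [finsum_mem_coe_finset]
      rfl
    · have h3 := H b (fun j x => key M (D j) x) T hT a φ h1 h2
      have h4 : ∫ t in a..(a + T), φ (fun j => edgeLog (D j) t) =
          ∫ t in a..(a + T), φ (fun j => Pool.Agent.TH339.MP.bl (b j) t) := by
        refine intervalIntegral.integral_congr_ae ?_
        have h5 : ∀ᵐ t : ℝ, ∀ j, edgeLog (D j) t = Pool.Agent.TH339.MP.bl (b j) t := by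
          rw [ae_all_iff]
          intro j
          rw [hedge]
          exact Pool.Agent.Q9.EL.bv_ae (key M (D j))
        filter_upwards [h5] with t ht _
        congr 1
        funext j
        exact ht j
      rw [h4]
      exact h3

end Pool.Agent.Results.MP_039d94_nt.EdgeLimitLaw
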