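import Pool.Agent.Q11.TP.Edge

/-!
# A simple pole of `L(H ⊗ H, s)` excludes all poles and zeros on the edge line off the real axis

`X` is a smooth projective variety over a number field `K`, for example over `K = ℚ`, `H = H^i(X)`, and
`χ` an Artin representation of `K`.  The edge line is the boundary `Re s = i/2 + 1` of the half-plane of
absolute convergence of `L(H ⊗ χ, s)`; for `χ = 1` this is the `L`-function of the problem, which should have
no pole on the line at a point different from `i/2 + 1`.  The edge of `L(H ⊗ H, s)`, a part of the
`L`-function of `H^{2i}(X × X)`, is the point `i + 1`.  Nothing is assumed about the automorphy of `H`.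
For the `L`-functions of automorphic representations such statements go back to the method of Rankin and
Selberg; there the continuation of the `L`-function of the tensor square is known.
The definitions are in `Pool.Agent.Q11.TP.EDefs`, `Pool.Agent.Y139.SM.GDefs`, `Pool.Agent.W353.AT.Defs`,
`Pool.Agent.W353.EH.Defs` and `Pool.Agent.W353.EF.Defs`.
-/

set_option autoImplicit false

namespace Pool.Agent.Results.MP_039d94_nt.EdgeLineTensorSquare

open NumberField Pool.Agent.Q11.TP

/-- **The edge line and the tensor square.**  Let `X` be a projective variety of dimension `d` over a
number field `K`, `0 ≤ i ≤ 2d`, and `N` its `i`-th Betti number.  Let `(χ_k, τ_k)` be finitely many different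
pairs of an irreducible Artin representation of `K` and a real number.
* (No continuation is assumed.)  For `η > 0` and all small `ε > 0` the sum of the squares of
  `log |L(H ⊗ χ_k, i/2 + 1 + iτ_k + ε)| / log(1/ε)` is at most `log |L(H ⊗ H, i + 1 + ε)| / log(1/ε) + η`; if no
  pair is the complex conjugate of another one or of itself, this holds for twice the sum.
* If there are meromorphic continuations, of the orders `m_k` at `i/2 + 1 + iτ_k` and with a pole of
  order `p` at `i + 1`, then `∑ m_k² ≤ p`, and `2 ∑ m_k² ≤ p` if there are no conjugate pairs.
* So, if `L(H ⊗ H, s)` has at most a simple pole at `i + 1`, then `L(H ⊗ χ, s)` has no pole and no zero at the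
  points `i/2 + 1 + iτ`, `τ ≠ 0`, for all irreducible `χ`; and at most one `χ`, which is self-dual, has a pole or a
  zero at `i/2 + 1`, which is then simple. -/
theorem result (K : Type) [Field K] [NumberField K] (n d i N : ℕ)
    (X : Set (MvPolynomial (Fin n) (𝓞 K))) (hi : i ≤ 2 * d) : EdgeSquare X d i N :=
  edgeSquare hi

end Pool.Agent.Results.MP_039d94_nt.EdgeLineTensorSquare
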