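import Pool.Agent.Q5.VA.Vertex

/-!
# Analytic continuation of the `L`-functions of varieties and finite sums over primes

Let `X` be a smooth projective variety of dimension `d` over a number field `K` (for example `K = ℚ`), given by
homogeneous polynomials over `𝓞 K`, `i ≤ 2 d`, and let `S` be a finite set of primes such that for `v ∉ S` the
eigenvalues `α_{v,1}, …, α_{v,N}` of the Frobenius on `H^i(X)` are given by the numbers of points of `X` over the
finite extensions of the residue field (by the theorem of Deligne this is so if `S` contains the primes of bad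
reduction). `L(s) = ∏_{v ∉ S} ∏_j (1 - α_{v,j} q_v^{-s})⁻¹` converges absolutely for `Re s > i/2 + 1`; nothing else is
assumed on `L`, and in general it is not known whether `L` can be continued to any other point.

Let `σ ≥ (i + 1)/2` be real (the central point or a point to the right of it). For `ρ > 1` let
`w_ρ(u) = (2πi)⁻¹ ∫_{Re z = 1} exp (z - u z^(1/ρ)) dz/z` (a real function, `w_ρ(0) = 1`, decreasing faster than
exponentially; for `ρ → 1` it tends to the sharp cut-off at `u = 1`), and for `ρ' > ρ`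

`S(Y) = ∑_{v ∉ S, q_v ≤ exp ((log Y)^ρ')} w_ρ(log q_v / log Y) log |∏_j (1 - α_{v,j} q_v^{-σ})|`,

a FINITE sum over the primes: the logarithm of a smoothed partial Euler product at `σ`. Then:

1. `S(Y) = O(exp (ε (log Y)^ρ))` for every `ε > 0` if and only if `L` has an analytic continuation without zeros to
  the sector `|arg (s - σ)| < π/(2ρ)` with the vertex `σ`.
2. This holds for all `1 < ρ < ρ'` if and only if `L` has an analytic continuation without zeros to the half plane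
  `Re s > σ`. For odd `i` and `σ = (i + 1)/2` this is the continuation to the half plane to the right of the central
  line, together with the Riemann hypothesis.
3. If `S(Y) = m log log Y + O(1)` for one pair `ρ < ρ'` and a real number `m`, then `L` has an analytic continuation
  without zeros to the sector with `|L(σ + x)| ≍ x^m` (`0 < x ≤ 1`).
4. Let `D(Y) = exp (- ∑ w_ρ(k log q_v / log Y) tr (Frob_v^k) / (k q_v^{kσ}))`, the finite sum over the prime powers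
  `q_v^k ≤ exp ((log Y)^ρ')`. For `r ≥ 0`, `A > 0`, `ρ₀ ≥ 1`: `D(Y) ∼ (e^{rγ/ρ}/A) (log Y)^r` for all
  `ρ' > ρ > ρ₀`, if and only if `L` has an analytic continuation without zeros to the sector `|arg (s - σ)| < π/(2ρ₀)`
  (for `ρ₀ = 1`: the half plane `Re s > σ`) and `L(s)/(s - σ)^r → A` for `s → σ` in every smaller sector.

So the continuation of `L(H^i(X), s)` past the edge `Re s = i/2 + 1` (without zeros) is a statement on the
numbers of points of `X` over finite fields, for every `X` and `i`, and for every half plane up to the central line.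

For elliptic curves over number fields and `σ = 1` the parts 1 to 3 are `SectorialLaw` of problem `MP_32c55d_nt`, and
part 4 is `LeadingTermLaw` of problem `MP_1a91b9_nt`. The proof for Euler systems is in the starting modules
`Pool.Agent.TH942.ES`, `Pool.Agent.TH942.SL` (helper942), `Pool.Agent.TH270.SH` (helper270); the definition of the
Frobenius eigenvalues is that of `Pool.Agent.TH958.BV.Defs` (helper958), their uniqueness is from
`Pool.Agent.W353.PV.Eig`. The Euler systems of varieties with an arbitrary vertex are in `Pool.Agent.Q5.VA`.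
-/

set_option autoImplicit false

namespace Pool.Agent.Results.MP_039d94_nt.ZeroFreeContinuation

open Filter Topology Set Complex NumberField IsDedekindDomain

variable {n : ℕ}

/-- The set `X` of homogeneous polynomials over a ring `R` in `n` variables defines a projective
scheme over `R`.  For a field `κ` with `q` elements and a homomorphism `R → κ` this is `(q - 1)`
times the number of the points of `X` with coordinates in `κ`: the number of the nonzero solutions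
of the equations. -/
noncomputable def cone {R : Type} [CommRing R] (X : Set (MvPolynomial (Fin n) R)) {κ : Type}
    [Field κ] (φ : R →+* κ) : ℕ :=
  Nat.card {u : Fin n → κ // u ≠ 0 ∧ ∀ f ∈ X, MvPolynomial.eval₂ φ u f = 0}

variable {K : Type} [Field K] [NumberField K]

/-- `α_1, …, α_N` are the eigenvalues of the geometric Frobenius at the prime `v` of `K` on `H^i(X)`,
for a variety `X` of dimension `d`: there are finite multisets `β_j` of complex numbers of absolute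
value `q_v^{j/2}`, `j = 0, …, 2d`, with `β_i = {α_1, …, α_N}`, such that for every finite extension
`κ` of the residue field of `v`, of degree `e`, the number of the points of `X` with coordinates in
`κ` is `∑ (-1)^j ∑_{z ∈ β_j} z^e`.  By the theorem of Deligne such `β_j` exist at the primes of good
reduction, with `N` the `i`-th Betti number of `X`; they are unique. -/
def IsFrobenius (X : Set (MvPolynomial (Fin n) (𝓞 K))) (d i : ℕ)
    (v : HeightOneSpectrum (𝓞 K)) {N : ℕ} (α : Fin N → ℂ) : Prop :=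
  ∃ β : ℕ → Multiset ℂ, β i = Finset.univ.val.map α ∧
    (∀ j, ∀ z ∈ β j, ‖z‖ = (Ideal.absNorm v.asIdeal : ℝ) ^ ((j : ℝ) / 2)) ∧
    ∀ (κ : Type) [Field κ] [Finite κ] (φ : 𝓞 K →+* κ) (e : ℕ), RingHom.ker φ = v.asIdeal →
      Nat.card κ = Ideal.absNorm v.asIdeal ^ e →
      (cone X φ : ℂ) = ((Ideal.absNorm v.asIdeal : ℂ) ^ e - 1) *
          ∑ j ∈ Finset.range (2 * d + 1), (-1 : ℂ) ^ j * ((β j).map (fun z => z ^ e)).sum

/-- The norm `q_v`. -/
noncomputable def norm (v : HeightOneSpectrum (𝓞 K)) : ℕ := Ideal.absNorm v.asIdeal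

/-- For all primes `v` outside of the finite set `S`, the `α v j` are the eigenvalues of the
Frobenius on `H^i(X)`. -/
def IsLocal (X : Set (MvPolynomial (Fin n) (𝓞 K))) (d i : ℕ) {N : ℕ}
    (S : Finset (HeightOneSpectrum (𝓞 K))) (α : HeightOneSpectrum (𝓞 K) → Fin N → ℂ) : Prop :=
  ∀ v : HeightOneSpectrum (𝓞 K), v ∉ S → IsFrobenius X d i v (α v)

variable {N : ℕ}

/-- The Euler factor `∏_j (1 - α_{v,j} q_v^{-s})⁻¹`. -/
noncomputable def factor (α : HeightOneSpectrum (𝓞 K) → Fin N → ℂ) (v : HeightOneSpectrum (𝓞 K))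
    (s : ℂ) : ℂ := (∏ j, (1 - α v j * (norm v : ℂ) ^ (-s)))⁻¹

/-- The `L`-function, the Euler product over the primes outside of `S` (for `Re s > i/2 + 1`). -/
noncomputable def Lfun (S : Finset (HeightOneSpectrum (𝓞 K)))
    (α : HeightOneSpectrum (𝓞 K) → Fin N → ℂ) (s : ℂ) : ℂ :=
  ∏' v : {v : HeightOneSpectrum (𝓞 K) // v ∉ S}, factor α v.1 s

/-- The weight `w_ρ(u) = (2π)⁻¹ ∫ Re (exp (z - u z^(1/ρ)) / z) dt`, `z = 1 + it`. -/
noncomputable def weight (ρ u : ℝ) : ℝ :=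
  (2 * Real.pi)⁻¹ * ∫ t : ℝ, (exp ((1 + t * I) - u * (1 + t * I) ^ ((ρ⁻¹ : ℝ) : ℂ)) / (1 + t * I)).re

/-- `S(Y)`, a finite sum over the primes `v ∉ S` with `q_v ≤ exp ((log Y)^ρ')`. -/
noncomputable def mean (σ : ℝ) (S : Finset (HeightOneSpectrum (𝓞 K)))
    (α : HeightOneSpectrum (𝓞 K) → Fin N → ℂ) (ρ ρ' Y : ℝ) : ℝ :=
  ∑ᶠ (v : {v : HeightOneSpectrum (𝓞 K) // v ∉ S})
    (_ : (norm v.1 : ℝ) ≤ Real.exp (Real.log Y ^ ρ')),
    weight ρ (Real.log (norm v.1) / Real.log Y) *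
      Real.log ‖∏ j, (1 - α v.1 j * (norm v.1 : ℂ) ^ (-(σ : ℂ)))‖

/-- Slow growth: `S(Y) = O(exp (ε (log Y)^ρ))` for every `ε > 0`. -/
def Slow (σ : ℝ) (S : Finset (HeightOneSpectrum (𝓞 K)))
    (α : HeightOneSpectrum (𝓞 K) → Fin N → ℂ) (ρ ρ' : ℝ) : Prop :=
  ∀ ε : ℝ, 0 < ε → ∃ C : ℝ, ∀ᶠ Y : ℝ in atTop,
    |mean σ S α ρ ρ' Y| ≤ C * Real.exp (ε * Real.log Y ^ ρ)

/-- The law `S(Y) = m log log Y + O(1)`. -/
def Law (σ : ℝ) (S : Finset (HeightOneSpectrum (𝓞 K)))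
    (α : HeightOneSpectrum (𝓞 K) → Fin N → ℂ) (ρ ρ' m : ℝ) : Prop :=
  ∃ C : ℝ, 0 ≤ C ∧ ∀ᶠ Y : ℝ in atTop, |mean σ S α ρ ρ' Y - m * Real.log (Real.log Y)| ≤ C

/-- `- log D(Y)`, the sum of `w_ρ(k log q_v / log Y) tr (Frob_v^k) / (k q_v^{kσ})` over the pairs `(v, k)`,
`v ∉ S`, `k = p.2 + 1 ≥ 1`, with `q_v^k ≤ exp ((log Y)^ρ')`; this is a finite sum, and the traces are real. -/
noncomputable def logSum (σ : ℝ) (S : Finset (HeightOneSpectrum (𝓞 K)))
    (α : HeightOneSpectrum (𝓞 K) → Fin N → ℂ) (ρ ρ' Y : ℝ) : ℝ :=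
  ∑ᶠ (p : {v : HeightOneSpectrum (𝓞 K) // v ∉ S} × ℕ)
    (_ : (norm p.1.1 : ℝ) ^ (p.2 + 1) ≤ Real.exp (Real.log Y ^ ρ')),
    weight ρ (((p.2 : ℝ) + 1) * Real.log (norm p.1.1) / Real.log Y) *
      ((∑ j, α p.1.1 j ^ (p.2 + 1)).re /
        (((p.2 : ℝ) + 1) * ((norm p.1.1 : ℝ) ^ σ) ^ (p.2 + 1)))

/-- `D(Y)`, the smoothed partial product at `σ`. -/
noncomputable def density (σ : ℝ) (S : Finset (HeightOneSpectrum (𝓞 K)))
    (α : HeightOneSpectrum (𝓞 K) → Fin N → ℂ) (ρ ρ' Y : ℝ) : ℝ :=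
  Real.exp (-logSum σ S α ρ ρ' Y)

/-- The asymptotic formula `D(Y) ∼ (e^{rγ/ρ} / A) (log Y)^r`. -/
def LeadLaw (σ : ℝ) (S : Finset (HeightOneSpectrum (𝓞 K)))
    (α : HeightOneSpectrum (𝓞 K) → Fin N → ℂ) (ρ ρ' : ℝ) (r : ℕ) (A : ℝ) : Prop :=
  Tendsto (fun Y : ℝ => density σ S α ρ ρ' Y / Real.log Y ^ r) atTop
    (𝓝 (Real.exp (r * Real.eulerMascheroniConstant / ρ) / A))

/-- The open sector `|arg (s - σ)| < π/(2ρ)` with vertex `σ` (for `ρ = 1` the half plane `Re s > σ`). -/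
def Sector (σ ρ : ℝ) : Set ℂ := {s | s ≠ σ ∧ |arg (s - σ)| < Real.pi / (2 * ρ)}

/-- `F` is an analytic continuation of the `L`-function to `U`, without zeros. -/
def ZeroFree (i : ℕ) (S : Finset (HeightOneSpectrum (𝓞 K)))
    (α : HeightOneSpectrum (𝓞 K) → Fin N → ℂ) (U : Set ℂ) (F : ℂ → ℂ) : Prop :=
  (∀ s : ℂ, s ∈ U ∨ (i : ℝ) / 2 + 1 < s.re → DifferentiableAt ℂ F s ∧ F s ≠ 0) ∧
    ∀ s : ℂ, (i : ℝ) / 2 + 1 < s.re → F s = Lfun S α s

/-- `|F(σ + x)| ≍ x^m` for `0 < x ≤ 1`. -/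
def Size (σ : ℝ) (F : ℂ → ℂ) (m : ℝ) : Prop :=
  ∃ A B : ℝ, 0 < A ∧ 0 < B ∧ ∀ x : ℝ, 0 < x → x ≤ 1 →
    A * x ^ m ≤ ‖F (σ + x)‖ ∧ ‖F (σ + x)‖ ≤ B * x ^ m

/-! ### translation -/

open Pool.Agent.TH942.ES (SrE StE zv xv cP Sys)
open Pool.Agent.H921R2.TatePole (nm)
open Pool.Agent.Q5.VA (NS aV Frob SectAt)

variable {X : Set (MvPolynomial (Fin n) (𝓞 K))} {d i : ℕ}
  {S : Finset (HeightOneSpectrum (𝓞 K))} {α : HeightOneSpectrum (𝓞 K) → Fin N → ℂ} {σ : ℝ}

theorem frob (h : IsLocal X d i S α) : Frob X d i S α := h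

theorem mean_eq (h : IsLocal X d i S α) (hσ : ((i : ℝ) + 1) / 2 ≤ σ) (ρ ρ' Y : ℝ) :
    mean σ S α ρ ρ' Y = SrE (NS S) (aV σ S α) ρ ρ' Y := by
  unfold mean SrE
  refine finsum_congr fun v => finsum_congr fun _ => ?_
  rw [(frob h).cvV hσ v]
  rfl

theorem slow_eq (h : IsLocal X d i S α) (hσ : ((i : ℝ) + 1) / 2 ≤ σ) (ρ ρ' : ℝ) :
    Slow σ S α ρ ρ' ↔ Pool.Agent.TH270.SH.Slow (NS S) (aV σ S α) ρ ρ' := by
  unfold Slow Pool.Agent.TH270.SH.Slow
  simp only [mean_eq h hσ]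

theorem law_eq (h : IsLocal X d i S α) (hσ : ((i : ℝ) + 1) / 2 ≤ σ) (ρ ρ' m : ℝ) :
    Law σ S α ρ ρ' m ↔ Pool.Agent.TH270.SH.Gr (NS S) (aV σ S α) ρ ρ' m := by
  unfold Law Pool.Agent.TH270.SH.Gr
  simp only [mean_eq h hσ]

theorem lfun_eq (s : ℂ) : Lfun S α s = Q5.VA.Lf S α s := rfl

theorem sector_eq (σ ρ : ℝ) : Sector σ ρ = SectAt σ ρ := rfl

theorem zf_iff (h : IsLocal X d i S α) (hi : i ≤ 2 * d) (hσ : ((i : ℝ) + 1) / 2 ≤ σ) {U : Set ℂ}
    (hUo : IsOpen U) (hUc : Convex ℝ U) (hUr : ∀ x : ℝ, σ < x → (x : ℂ) ∈ U) :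
    (∃ G : ℂ → ℂ, Pool.Agent.TH270.SH.ZF (NS S) (aV σ S α) {s | σ + s ∈ U} G) ↔
      ∃ F : ℂ → ℂ, ZeroFree i S α U F := by
  constructor
  · rintro ⟨G, hG⟩
    obtain ⟨F, h1, h2, -⟩ := (frob h).zf_up hi hσ hUo hUc hUr hG
    exact ⟨F, h1, h2⟩
  · rintro ⟨F, h1, h2⟩
    exact ⟨_, Q5.VA.Frob.zf_down hσ h1 h2⟩

theorem size_up {U : Set ℂ} (hUr : ∀ x : ℝ, σ < x → (x : ℂ) ∈ U) {F G : ℂ → ℂ}
    (hFG : ∀ s ∈ U, F s = G (s - σ)) {m : ℝ} (h : Pool.Agent.TH270.SH.Size G m) :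
    Size σ F m := by
  obtain ⟨A, B, hA, hB, h⟩ := h
  refine ⟨A, B, hA, hB, fun x hx hx1 => ?_⟩
  have h1 : (σ : ℂ) + x ∈ U := by
    have := hUr (σ + x) (by linarith)
    push_cast at this
    exact this
  rw [hFG _ h1, add_sub_cancel_left]
  exact h x hx hx1

theorem logSum_eq (σ : ℝ) (S : Finset (HeightOneSpectrum (𝓞 K)))
    (α : HeightOneSpectrum (𝓞 K) → Fin N → ℂ) (ρ ρ' Y : ℝ) :
    logSum σ S α ρ ρ' Y = StE (NS S) (aV σ S α) ρ ρ' Y := by
  unfold logSum StE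
  refine finsum_congr fun p => finsum_congr fun _ => ?_
  rw [Q5.VA.cP_V]
  rfl

/-- the two forms of the law for the leading coefficient -/
theorem lead_law_iff {ρ ρ' A : ℝ} {r : ℕ} (hA : 0 < A) : LeadLaw σ S α ρ ρ' r A ↔
    Tendsto (fun Y : ℝ => StE (NS S) (aV σ S α) ρ ρ' Y + r * Real.log (Real.log Y)) atTop
      (𝓝 (Real.log A - r * Real.eulerMascheroniConstant / ρ)) := by
  unfold LeadLaw
  have hpos : ∀ᶠ Y : ℝ in atTop, 0 < Real.log Y :=
    Real.tendsto_log_atTop.eventually_gt_atTop 0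
  constructor
  · intro h
    have h1 := h.log (by positivity)
    rw [Real.log_div (Real.exp_pos _).ne' hA.ne', Real.log_exp] at h1
    have h2 := h1.neg
    rw [neg_sub] at h2
    refine h2.congr' ?_
    filter_upwards [hpos] with Y hY
    rw [density, Real.log_div (Real.exp_pos _).ne' (by positivity), Real.log_exp, Real.log_pow,
      logSum_eq]
    ring
  · intro h
    have h1 := (Real.continuous_exp.tendsto _).comp h.neg
    have e1 : Real.exp (-(Real.log A - r * Real.eulerMascheroniConstant / ρ)) =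
        Real.exp (r * Real.eulerMascheroniConstant / ρ) / A := by
      rw [neg_sub, Real.exp_sub, Real.exp_log hA]
    rw [e1] at h1
    refine h1.congr' ?_
    filter_upwards [hpos] with Y hY
    simp only [Function.comp_apply]
    rw [density, logSum_eq, neg_add, Real.exp_add, div_eq_mul_inv]
    congr 1
    rw [Real.exp_neg, mul_comm, Real.exp_mul, Real.exp_log hY, Real.rpow_natCast]

theorem tendsto_up (σ ρ : ℝ) : Tendsto (fun s : ℂ => σ + s) (𝓝[Pool.Agent.TH942.SL.Sect ρ] 0)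
    (𝓝[Sector σ ρ] σ) := by
  refine tendsto_nhdsWithin_iff.2 ⟨?_, ?_⟩
  · have h1 : Tendsto (fun s : ℂ => σ + s) (𝓝 0) (𝓝 (σ + 0)) :=
      (continuous_const.add continuous_id).tendsto _
    rw [add_zero] at h1
    exact h1.mono_left nhdsWithin_le_nhds
  · filter_upwards [self_mem_nhdsWithin] with s hs
    rw [sector_eq, Q5.VA.mem_sectAt, add_sub_cancel_left]
    exact hs

theorem tendsto_down (σ ρ : ℝ) : Tendsto (fun s : ℂ => s - σ) (𝓝[Sector σ ρ] σ)
    (𝓝[Pool.Agent.TH942.SL.Sect ρ] 0) := by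
  refine tendsto_nhdsWithin_iff.2 ⟨?_, ?_⟩
  · have h1 : Tendsto (fun s : ℂ => s - σ) (𝓝 σ) (𝓝 (σ - σ)) :=
      (continuous_id.sub continuous_const).tendsto _
    rw [sub_self] at h1
    exact h1.mono_left nhdsWithin_le_nhds
  · filter_upwards [self_mem_nhdsWithin] with s hs
    rw [sector_eq, Q5.VA.mem_sectAt] at hs
    exact hs

/-- **Continuation of the `L`-functions of varieties and finite sums over the primes.** -/
theorem result (K : Type) [Field K] [NumberField K] (n : ℕ)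
    (X : Set (MvPolynomial (Fin n) (𝓞 K))) (d i N : ℕ) (hi : i ≤ 2 * d)
    (S : Finset (HeightOneSpectrum (𝓞 K))) (α : HeightOneSpectrum (𝓞 K) → Fin N → ℂ)
    (hα : IsLocal X d i S α) :
    (∀ s : ℂ, (i : ℝ) / 2 + 1 < s.re →
      HasProd (fun v : {v : HeightOneSpectrum (𝓞 K) // v ∉ S} => factor α v.1 s) (Lfun S α s)) ∧
    ∀ σ : ℝ, ((i : ℝ) + 1) / 2 ≤ σ →
      (∀ ρ ρ' : ℝ, 1 < ρ → ρ < ρ' →
        (Slow σ S α ρ ρ' ↔ ∃ F : ℂ → ℂ, ZeroFree i S α (Sector σ ρ) F)) ∧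
      ((∀ ρ ρ' : ℝ, 1 < ρ → ρ < ρ' → Slow σ S α ρ ρ') ↔
        ∃ F : ℂ → ℂ, ZeroFree i S α {s | σ < s.re} F) ∧
      (∀ ρ ρ' m : ℝ, 1 < ρ → ρ < ρ' → Law σ S α ρ ρ' m →
        ∃ F : ℂ → ℂ, ZeroFree i S α (Sector σ ρ) F ∧ Size σ F m) ∧
      ∀ (ρ₀ : ℝ) (r : ℕ) (A : ℝ), 1 ≤ ρ₀ → 0 < A →
        ((∀ ρ ρ' : ℝ, ρ₀ < ρ → ρ < ρ' → LeadLaw σ S α ρ ρ' r A) ↔
          ∃ F : ℂ → ℂ, ZeroFree i S α (Sector σ ρ₀) F ∧
            ∀ ρ : ℝ, ρ₀ < ρ →
              Tendsto (fun s => F s / (s - σ) ^ r) (𝓝[Sector σ ρ] σ) (𝓝 (A : ℂ))) := by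
  refine ⟨fun s hs => (frob hα).lf_prod hi hs, fun σ hσ => ?_⟩
  have E := (frob hα).sysV hi hσ
  have hsec : ∀ ρ : ℝ, 1 ≤ ρ → ∀ x : ℝ, σ < x → (x : ℂ) ∈ Sector σ ρ := fun ρ hρ x hx =>
    Q5.VA.sectAt_real hρ hx
  refine ⟨fun ρ ρ' hρ hρ' => ?_, ?_, fun ρ ρ' m hρ hρ' h => ?_, fun ρ₀ r A hρ hA => ?_⟩
  · rw [slow_eq hα hσ, Pool.Agent.TH270.SH.slow_iff E hρ hρ', ← Q5.VA.sectAt_eq σ ρ]
    exact zf_iff hα hi hσ (Q5.VA.sectAt_open hρ.le) (Q5.VA.sectAt_convex hρ.le)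
      (hsec ρ hρ.le)
  · simp only [slow_eq hα hσ]
    rw [Pool.Agent.TH270.SH.slow_all_iff E, ← Q5.VA.half_eq σ]
    exact zf_iff hα hi hσ (isOpen_lt continuous_const Complex.continuous_re)
      (convex_halfSpace_re_gt _) (fun x hx => by
        rw [Set.mem_ofPred_eq, Complex.ofReal_re]
        exact hx)
  · obtain ⟨G, hG, hs⟩ := Pool.Agent.TH270.SH.Gr.cont E hρ hρ' ((law_eq hα hσ ρ ρ' m).1 h)
    rw [← Q5.VA.sectAt_eq σ ρ] at hG
    obtain ⟨F, h1, h2, h3⟩ := (frob hα).zf_up hi hσ (Q5.VA.sectAt_open hρ.le)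
      (Q5.VA.sectAt_convex hρ.le) (hsec ρ hρ.le) hG
    exact ⟨F, ⟨h1, h2⟩, size_up (hsec ρ hρ.le) h3 hs⟩
  · have t := E.star_equiv ((frob hα).realV hi) hρ r hA
    simp only [← lead_law_iff hA] at t
    rw [t]
    constructor
    · rintro ⟨G, h1, h2, h3⟩
      have hG : Pool.Agent.TH270.SH.ZF (NS S) (aV σ S α)
          {s | σ + s ∈ SectAt σ ρ₀} G := by
        rw [Q5.VA.sectAt_eq]
        exact ⟨h1, h2⟩
      obtain ⟨F, h4, h5, h6⟩ := (frob hα).zf_up hi hσ (Q5.VA.sectAt_open hρ)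
        (Q5.VA.sectAt_convex hρ) (hsec ρ₀ hρ) hG
      refine ⟨F, ⟨h4, h5⟩, fun ρ hρ2 => ?_⟩
      have h7 := (h3 ρ hρ2).comp (tendsto_down σ ρ)
      refine h7.congr' ?_
      filter_upwards [self_mem_nhdsWithin] with s hs
      have hs' : s ∈ SectAt σ ρ₀ := by
        rw [Q5.VA.mem_sectAt]
        rw [sector_eq, Q5.VA.mem_sectAt] at hs
        exact Pool.Agent.TH942.ES.sect_mono' hρ hρ2.le hs
      simp only [Function.comp_apply]
      rw [h6 s hs']
    · rintro ⟨F, ⟨h1, h2⟩, h3⟩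
      have hG := Q5.VA.Frob.zf_down (i := i) (N := N) (α := α) (S := S) hσ h1 h2
      rw [sector_eq, Q5.VA.sectAt_eq] at hG
      refine ⟨_, hG.1, hG.2, fun ρ hρ2 => ?_⟩
      have h4 := (h3 ρ hρ2).comp (tendsto_up σ ρ)
      refine h4.congr fun s => ?_
      simp only [Function.comp_apply, add_sub_cancel_left]

end Pool.Agent.Results.MP_039d94_nt.ZeroFreeContinuation
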